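import Mathlib

/-!
A Lie algebra of matrices which is stable under the bracket with the Lie algebra of a diagonal quadratic form in at least five
variables, characteristic different from 2: it contains all matrices of trace zero, or it lies between the Lie algebra of the form
and the similitudes.
-/

set_option autoImplicit false

open Matrix

namespace Pool.Agent.Helper77.KN

variable {F : Type*} [Field F] {m : Type*} [Fintype m] [DecidableEq m]

/-- `d j e_ij - d i e_ji` -/
def sd (d : m → F) (i j : m) : Matrix m m F := single i j (d j) - single j i (d i)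

/-- projection on the coordinates `i`, `j` -/
def pd (i j : m) : Matrix m m F := diagonal fun u => if u = i ∨ u = j then 1 else 0

omit [Fintype m] in
theorem sd_apply (d : m → F) (i j u v : m) :
    sd d i j u v = (if i = u ∧ j = v then d j else 0) - if j = u ∧ i = v then d i else 0 := by
  simp only [sd, Matrix.sub_apply, single_apply]

theorem sd_skew (d : m → F) (i j : m) : (sd d i j)ᵀ * diagonal d + diagonal d * sd d i j = 0 := by
  ext u v
  rw [Matrix.add_apply, mul_diagonal, diagonal_mul, transpose_apply, sd_apply, sd_apply, Matrix.zero_apply]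
  have e1 : (if i = v ∧ j = u then d j else 0) * d v = if j = u ∧ i = v then d i * d j else 0 := by
    split_ifs with h1 h2 h2
    · rw [← h1.1]; ring
    · exact absurd h1.symm h2
    · exact absurd h2.symm h1
    · ring
  have e2 : (if j = v ∧ i = u then d i else 0) * d v = if i = u ∧ j = v then d i * d j else 0 := by
    split_ifs with h1 h2 h2
    · rw [← h1.1]
    · exact absurd h1.symm h2
    · exact absurd h2.symm h1
    · ring
  have e3 : d u * (if i = u ∧ j = v then d j else 0) = if i = u ∧ j = v then d i * d j else 0 := by
    split_ifs with h1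
    · rw [← h1.1]
    · ring
  have e4 : d u * (if j = u ∧ i = v then d i else 0) = if j = u ∧ i = v then d i * d j else 0 := by
    split_ifs with h1
    · rw [← h1.1]; ring
    · ring
  rw [sub_mul, mul_sub, e1, e2, e3, e4]
  ring

theorem sd_sq (d : m → F) {i j : m} (h : i ≠ j) : sd d i j * sd d i j = (-(d i * d j)) • pd i j := by
  have e1 : single i j (d j) * single i j (d j) = (0 : Matrix m m F) := single_mul_single_of_ne _ _ _ _ h.symm _
  have e2 : single j i (d i) * single j i (d i) = (0 : Matrix m m F) := single_mul_single_of_ne _ _ _ _ h _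
  have e3 : single i j (d j) * single j i (d i) = (single i i (d j * d i) : Matrix m m F) := single_mul_single_same _ _ _ _ _
  have e4 : single j i (d i) * single i j (d j) = (single j j (d i * d j) : Matrix m m F) := single_mul_single_same _ _ _ _ _
  rw [sd, sub_mul, mul_sub, mul_sub, e1, e2, e3, e4]
  ext u v
  simp only [Matrix.sub_apply, single_apply, Matrix.smul_apply, pd, diagonal_apply, Matrix.zero_apply, smul_eq_mul]
  by_cases huv : u = v
  · subst huv
    by_cases h1 : i = u
    · subst h1
      simp [h.symm]; ring
    · by_cases h2 : j = u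
      · subst h2
        simp [h]
      · have h3 : ¬ u = i := fun h => h1 h.symm
        have h4 : ¬ u = j := fun h => h2 h.symm
        simp [h1, h2, h3, h4]
  · have h3 : ¬ (i = u ∧ i = v) := fun h => huv (h.1.symm.trans h.2)
    have h4 : ¬ (j = u ∧ j = v) := fun h => huv (h.1.symm.trans h.2)
    simp [huv, h3, h4]

theorem sd_mul (d : m → F) {i j k l : m} (h1 : i ≠ k) (h2 : i ≠ l) (h3 : j ≠ k) (h4 : j ≠ l) :
    sd d i j * sd d k l = 0 := by
  rw [sd, sd, sub_mul, mul_sub, mul_sub, single_mul_single_of_ne _ _ _ _ h3 _, single_mul_single_of_ne _ _ _ _ h4 _,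
    single_mul_single_of_ne _ _ _ _ h1 _, single_mul_single_of_ne _ _ _ _ h2 _]
  simp

/-- the blocks of `a` for disjoint pairs -/
theorem blk {d : m → F} (hd : ∀ i, d i ≠ 0) {L : Submodule F (Matrix m m F)}
    (hL : ∀ s : Matrix m m F, sᵀ * diagonal d + diagonal d * s = 0 → ∀ a ∈ L, s * a - a * s ∈ L)
    {i j k l : m} (hij : i ≠ j) (hkl : k ≠ l) (h1 : i ≠ k) (h2 : i ≠ l) (h3 : j ≠ k) (h4 : j ≠ l) {a : Matrix m m F}
    (ha : a ∈ L) : pd i j * a * pd k l + pd k l * a * pd i j ∈ L := by
  have hS := fun b hb => hL _ (sd_skew d i j) b hb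
  have hT := fun b hb => hL _ (sd_skew d k l) b hb
  have q1 := sd_sq d hij
  have q2 := sd_sq d hkl
  have q3 := sd_mul d h1 h2 h3 h4
  have q4 := sd_mul d h1.symm h3.symm h2.symm h4.symm
  set S := sd d i j with hSd
  set T := sd d k l with hTd
  have h := hS _ (hS _ (hT _ (hT _ ha)))
  have key : S * (S * (T * (T * a - a * T) - (T * a - a * T) * T) - (T * (T * a - a * T) - (T * a - a * T) * T) * S) -
      (S * (T * (T * a - a * T) - (T * a - a * T) * T) - (T * (T * a - a * T) - (T * a - a * T) * T) * S) * S =
      (S * S) * a * (T * T) + (T * T) * a * (S * S) := by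
    have r1 : ∀ X : Matrix m m F, S * (T * X) = 0 := fun X => by rw [← Matrix.mul_assoc, q3, Matrix.zero_mul]
    simp only [Matrix.mul_sub, Matrix.sub_mul, Matrix.mul_assoc, q4, r1, Matrix.mul_zero]
    abel
  rw [key, q1, q2] at h
  have h5 : (d i * d j * (d k * d l))⁻¹ • ((-(d i * d j)) • pd i j * a * (-(d k * d l)) • pd k l +
      (-(d k * d l)) • pd k l * a * (-(d i * d j)) • pd i j) ∈ L := L.smul_mem _ h
  convert h5 using 1
  simp only [Matrix.smul_mul, Matrix.mul_smul, smul_smul]
  rw [smul_add, smul_smul, smul_smul]
  have c1 : (d i * d j * (d k * d l))⁻¹ * (-(d k * d l) * -(d i * d j)) = 1 := by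
    have := hd i; have := hd j; have := hd k; have := hd l
    field_simp
  have c2 : (d i * d j * (d k * d l))⁻¹ * (-(d i * d j) * -(d k * d l)) = 1 := by
    have := hd i; have := hd j; have := hd k; have := hd l
    field_simp
  rw [c1, c2, one_smul, one_smul]

omit [Fintype m] in
theorem single_sub77 (i j : m) (a b : F) : single i j (a - b) = (single i j a - single i j b : Matrix m m F) := by
  rw [sub_eq_add_neg, Matrix.single_add, ← Matrix.single_neg, ← sub_eq_add_neg]

theorem fresh (s : Finset m) (h : s.card < Fintype.card m) : ∃ x, x ∉ s := by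
  by_contra hc
  push Not at hc
  have : s = Finset.univ := Finset.eq_univ_iff_forall.mpr hc
  rw [this, Finset.card_univ] at h
  exact lt_irrefl _ h

theorem ent {d : m → F} (hd : ∀ i, d i ≠ 0) {L : Submodule F (Matrix m m F)} (hm : 4 < Fintype.card m)
    (hL : ∀ s : Matrix m m F, sᵀ * diagonal d + diagonal d * s = 0 → ∀ a ∈ L, s * a - a * s ∈ L)
    {i k : m} (hik : i ≠ k) {a : Matrix m m F} (ha : a ∈ L) : single i k (a i k) + single k i (a k i) ∈ L := by
  obtain ⟨j, hj⟩ := fresh ({i, k} : Finset m) (lt_of_le_of_lt (Finset.card_le_two) (by omega))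
  obtain ⟨l, hl⟩ := fresh ({i, k, j} : Finset m) (lt_of_le_of_lt (Finset.card_le_three) (by omega))
  obtain ⟨t, ht⟩ := fresh ({i, k, j, l} : Finset m) (lt_of_le_of_lt (Finset.card_le_four) (by omega))
  simp only [Finset.mem_insert, Finset.mem_singleton, not_or] at hj hl ht
  obtain ⟨hji, hjk⟩ := hj
  obtain ⟨hli, hlk, hlj⟩ := hl
  obtain ⟨hti, htk, htj, htl⟩ := ht
  have h1 := blk hd hL (i := i) (j := j) (k := k) (l := l) (Ne.symm hji) (Ne.symm hlk) hik (Ne.symm hli) hjk
    (Ne.symm hlj) ha
  have h2 := blk hd hL (i := i) (j := t) (k := k) (l := j) (Ne.symm hti) (Ne.symm hjk) hik (Ne.symm hji) htk htj h1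
  convert h2 using 1
  have A : ∀ u : m, (if u = i ∨ u = t then (1 : F) else 0) * (if u = i ∨ u = j then 1 else 0) = if u = i then 1 else 0 := by
    intro u
    by_cases h : u = i
    · simp [h]
    · by_cases h' : u = t
      · subst h'
        simp [h, htj]
      · simp [h, h']
  have B : ∀ u : m, (if u = k ∨ u = j then (1 : F) else 0) * (if u = k ∨ u = l then 1 else 0) = if u = k then 1 else 0 := by
    intro u
    by_cases h : u = k
    · simp [h]
    · by_cases h' : u = j
      · subst h'
        simp [h, Ne.symm hlj]
      · simp [h, h']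
  have C : ∀ u : m, (if u = i ∨ u = t then (1 : F) else 0) * (if u = k ∨ u = l then 1 else 0) = 0 := by
    intro u
    by_cases h : u = i
    · subst h
      simp [hik, Ne.symm hli]
    · by_cases h' : u = t
      · subst h'
        simp [htk, htl]
      · simp [h, h']
  ext u v
  have hu1 := A u
  have hu2 := B u
  have hu3 := C u
  have hv1 := A v
  have hv2 := B v
  have hv3 := C v
  simp only [pd, Matrix.add_apply, mul_diagonal, diagonal_mul, single_apply]
  generalize (if u = i ∨ u = t then (1 : F) else 0) = ut at *
  generalize (if u = i ∨ u = j then (1 : F) else 0) = uj at *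
  generalize (if u = k ∨ u = l then (1 : F) else 0) = ul at *
  generalize (if u = k ∨ u = j then (1 : F) else 0) = uk at *
  generalize (if v = i ∨ v = t then (1 : F) else 0) = vt at *
  generalize (if v = i ∨ v = j then (1 : F) else 0) = vj at *
  generalize (if v = k ∨ v = l then (1 : F) else 0) = vl at *
  generalize (if v = k ∨ v = j then (1 : F) else 0) = vk at *
  have e : ut * (uj * a u v * vl + ul * a u v * vj) * vk + uk * (uj * a u v * vl + ul * a u v * vj) * vt =
      (ut * uj) * (vk * vl) * a u v + (ut * ul) * (vj * vk) * a u v + (uk * uj) * (vt * vl) * a u v +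
      (uk * ul) * (vt * vj) * a u v := by ring
  rw [e, hu1, hu2, hu3, hv1, hv2, hv3]
  have e1 : (if i = u ∧ k = v then a i k else 0) = (if u = i then 1 else 0) * (if v = k then 1 else 0) * a u v := by
    by_cases p : u = i
    · by_cases q : v = k
      · simp [p, q]
      · have q' : ¬ k = v := fun h => q h.symm
        simp [q, q']
    · have p' : ¬ i = u := fun h => p h.symm
      simp [p, p']
  have e2 : (if k = u ∧ i = v then a k i else 0) = (if u = k then 1 else 0) * (if v = i then 1 else 0) * a u v := by
    by_cases p : u = k
    · by_cases q : v = i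
      · simp [p, q]
      · have q' : ¬ i = v := fun h => q h.symm
        simp [q, q']
    · have p' : ¬ k = u := fun h => p h.symm
      simp [p, p']
  rw [e1, e2]
  ring

theorem mv {d : m → F} {L : Submodule F (Matrix m m F)}
    (hL : ∀ s : Matrix m m F, sᵀ * diagonal d + diagonal d * s = 0 → ∀ a ∈ L, s * a - a * s ∈ L)
    {i k l : m} (hik : i ≠ k) (hli : l ≠ i) (hlk : l ≠ k) {α β : F} (h : single i k α + single k i β ∈ L) :
    single i l (α * d l) + single l i (β * d k) ∈ L := by
  have h1 := L.neg_mem (hL _ (sd_skew d k l) _ h)
  convert h1 using 1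
  simp only [sd, Matrix.sub_mul, Matrix.mul_sub, Matrix.mul_add, Matrix.add_mul]
  rw [single_mul_single_of_ne _ _ _ _ hli, single_mul_single_of_ne _ _ _ _ hlk, single_mul_single_of_ne _ _ _ _ hik.symm,
    single_mul_single_same, single_mul_single_same, single_mul_single_of_ne _ _ _ _ hlk.symm,
    single_mul_single_of_ne _ _ _ _ hik, single_mul_single_of_ne _ _ _ _ hli.symm, mul_comm (d k) β]
  abel

theorem conn (hm : 4 < Fintype.card m) (R : m → m → Prop)
    (hcol : ∀ i k l, i ≠ k → l ≠ i → l ≠ k → R i k → R i l) (hrow : ∀ i k j, i ≠ k → j ≠ i → j ≠ k → R i k → R j k)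
    {i k : m} (hik : i ≠ k) (h : R i k) (j l : m) (hjl : j ≠ l) : R j l := by
  obtain ⟨t, ht⟩ := fresh ({i, k, j, l} : Finset m) (lt_of_le_of_lt (Finset.card_le_four) (by omega))
  simp only [Finset.mem_insert, Finset.mem_singleton, not_or] at ht
  obtain ⟨hti, htk, htj, htl⟩ := ht
  have h1 : R i t := hcol i k t hik hti htk h
  have h2 : R j t := by
    by_cases hji : j = i
    · rw [hji]; exact h1
    · exact hrow i t j (Ne.symm hti) hji (Ne.symm htj) h1
  exact hcol j t l (Ne.symm htj) hjl.symm (Ne.symm htl) h2

theorem sl_of_one {d : m → F} (hd : ∀ i, d i ≠ 0) {L : Submodule F (Matrix m m F)} (hm : 4 < Fintype.card m)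
    (hbr : ∀ x ∈ L, ∀ y ∈ L, x * y - y * x ∈ L)
    (hL : ∀ s : Matrix m m F, sᵀ * diagonal d + diagonal d * s = 0 → ∀ a ∈ L, s * a - a * s ∈ L)
    {i k : m} (hik : i ≠ k) (h : single i k (1 : F) ∈ L) (x : Matrix m m F) (hx : x.trace = 0) : x ∈ L := by
  have all : ∀ j l : m, j ≠ l → single j l (1 : F) ∈ L := by
    refine fun j l hjl => conn hm (fun j l => single j l (1 : F) ∈ L) ?_ ?_ hik h j l hjl
    · intro i k l hik hli hlk h
      have h1 := mv hL hik hli hlk (α := 1) (β := 0) (by simpa using h)
      have h2 := L.smul_mem (d l)⁻¹ h1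
      have := hd l
      simpa [Matrix.smul_single, this] using h2
    · intro i k j hik hji hjk h
      have h1 := mv hL hik.symm hjk hji (α := 0) (β := 1) (by simpa using h)
      have h2 := L.smul_mem (d i)⁻¹ h1
      have := hd i
      simpa [Matrix.smul_single, this] using h2
  have all' : ∀ (j l : m) (c : F), j ≠ l → single j l c ∈ L := by
    intro j l c hjl
    have := L.smul_mem c (all j l hjl)
    simpa [Matrix.smul_single] using this
  have dg : ∀ (j o : m) (c : F), single j j c - single o o c ∈ L := by
    intro j o c
    by_cases hjo : j = o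
    · rw [hjo]; simp
    · have h1 := hbr _ (all' j o c hjo) _ (all o j (Ne.symm hjo))
      rw [single_mul_single_same, single_mul_single_same] at h1
      simpa using h1
  have key : x = ∑ j, ∑ l, (single j l (x j l) - if j = l then single i i (x j l) else 0) := by
    have e1 : ∀ j : m, ∑ l, (single j l (x j l) - if j = l then single i i (x j l) else 0) =
        (∑ l, single j l (x j l)) - single i i (x j j) := by
      intro j
      rw [Finset.sum_sub_distrib, Finset.sum_ite_eq Finset.univ j, if_pos (Finset.mem_univ j)]
    simp only [e1]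
    rw [Finset.sum_sub_distrib, ← matrix_eq_sum_single x]
    have e2 : ∑ j, single i i (x j j) = (single i i x.trace : Matrix m m F) := by
      rw [Matrix.trace]
      ext u v
      rw [Matrix.sum_apply]
      simp only [single_apply, Matrix.diag_apply]
      split_ifs
      · rfl
      · simp
    rw [e2, hx]
    simp
  rw [key]
  refine L.sum_mem fun j _ => L.sum_mem fun l _ => ?_
  by_cases hjl : j = l
  · subst hjl
    rw [if_pos rfl]
    exact dg _ _ _
  · rw [if_neg hjl, sub_zero]
    exact all' _ _ _ hjl

theorem so_max_diag (h2 : (2 : F) ≠ 0) (hm : 4 < Fintype.card m) (d : m → F) (hd : ∀ i, d i ≠ 0)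
    (L : Submodule F (Matrix m m F)) (hbr : ∀ x ∈ L, ∀ y ∈ L, x * y - y * x ∈ L)
    (hL : ∀ s : Matrix m m F, sᵀ * diagonal d + diagonal d * s = 0 → ∀ a ∈ L, s * a - a * s ∈ L)
    (hns : ∃ c ∈ L, ∀ l : F, c ≠ l • (1 : Matrix m m F)) :
    (∀ x : Matrix m m F, x.trace = 0 → x ∈ L) ∨
      (∀ s : Matrix m m F, sᵀ * diagonal d + diagonal d * s = 0 → s ∈ L) ∧
        ∀ c ∈ L, ∃ l : F, cᵀ * diagonal d + diagonal d * c = l • diagonal d := by
  by_cases hcase : ∃ a ∈ L, ∃ i k : m, i ≠ k ∧ d i * a i k + d k * a k i ≠ 0
  · left
    obtain ⟨a, ha, i, k, hik, hne⟩ := hcase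
    have hx := ent hd hm hL hik ha
    set α := a i k
    set β := a k i
    by_cases hα : α = 0
    · have hβ : β ≠ 0 := by
        intro h
        apply hne
        rw [hα, h]; ring
      rw [hα] at hx
      have h3 := L.smul_mem β⁻¹ hx
      exact sl_of_one hd hm hbr hL hik.symm (by simpa [Matrix.smul_single, hβ] using h3)
    · by_cases hβ : β = 0
      · rw [hβ] at hx
        have h3 := L.smul_mem α⁻¹ hx
        exact sl_of_one hd hm hbr hL hik (by simpa [Matrix.smul_single, hα] using h3)
      · obtain ⟨l, hl⟩ := fresh ({i, k} : Finset m) (lt_of_le_of_lt (Finset.card_le_two) (by omega))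
        simp only [Finset.mem_insert, Finset.mem_singleton, not_or] at hl
        obtain ⟨hli, hlk⟩ := hl
        have hy := mv hL hik hli hlk hx
        have hz := hbr _ hx _ hy
        have e1 : (single i k α + single k i β) * (single i l (α * d l) + single l i (β * d k)) -
            (single i l (α * d l) + single l i (β * d k)) * (single i k α + single k i β) =
            (single k l (β * (α * d l)) + single l k (-(β * d k * α)) : Matrix m m F) := by
          simp only [Matrix.mul_add, Matrix.add_mul]
          rw [single_mul_single_of_ne _ _ _ _ hik.symm, single_mul_single_of_ne _ _ _ _ (Ne.symm hlk),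
            single_mul_single_same, single_mul_single_of_ne _ _ _ _ (Ne.symm hli), single_mul_single_of_ne _ _ _ _ hli,
            single_mul_single_of_ne _ _ _ _ hlk, single_mul_single_same, single_mul_single_of_ne _ _ _ _ hik,
            ← Matrix.single_neg]
          abel
        rw [e1] at hz
        have hw := mv hL (Ne.symm hlk) hik (Ne.symm hli) hz
        have hv := L.smul_mem (α * d l * (d i * α + d k * β))⁻¹ (L.sub_mem (L.smul_mem (α * d l * d i) hx) hw)
        have hn : α * d l * (d i * α + d k * β) ≠ 0 := mul_ne_zero (mul_ne_zero hα (hd l)) hne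
        refine sl_of_one hd hm hbr hL hik ?_
        convert hv using 1
        simp only [smul_add, Matrix.smul_single, smul_eq_mul]
        have e2 : single i k (α * d l * d i * α) + single k i (α * d l * d i * β) -
            (single k i (β * (α * d l) * d i) + single i k (-(β * d k * α) * d l)) =
            (single i k (α * d l * (d i * α + d k * β)) : Matrix m m F) := by
          rw [show α * d l * (d i * α + d k * β) = α * d l * d i * α - (-(β * d k * α) * d l) by ring,
            show β * (α * d l) * d i = α * d l * d i * β by ring, single_sub77]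
          abel
        rw [e2, Matrix.smul_single, smul_eq_mul, inv_mul_cancel₀ hn]
  · right
    push Not at hcase
    have hoff : ∀ a ∈ L, ∀ i k : m, i ≠ k → d i * a i k + d k * a k i = 0 := fun a ha i k h => hcase a ha i k h
    have hdiag : ∀ a ∈ L, ∀ i k : m, a i i = a k k := by
      intro a ha i k
      by_cases hik : i = k
      · rw [hik]
      · have h1 := hoff _ (hL _ (sd_skew d i k) a ha) i k hik
        have e1 : (sd d i k * a - a * sd d i k) i k = d k * (a k k - a i i) := by
          rw [Matrix.sub_apply, sd, Matrix.sub_mul, Matrix.mul_sub, Matrix.sub_apply, Matrix.sub_apply]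
          rw [Matrix.single_mul_apply_same, Matrix.single_mul_apply_of_ne _ _ _ _ _ hik,
            Matrix.mul_single_apply_same, Matrix.mul_single_apply_of_ne _ _ _ _ _ (Ne.symm hik)]
          ring
        have e2 : (sd d i k * a - a * sd d i k) k i = d i * (a k k - a i i) := by
          rw [Matrix.sub_apply, sd, Matrix.sub_mul, Matrix.mul_sub, Matrix.sub_apply, Matrix.sub_apply]
          rw [Matrix.single_mul_apply_same, Matrix.single_mul_apply_of_ne _ _ _ _ _ (Ne.symm hik),
            Matrix.mul_single_apply_same, Matrix.mul_single_apply_of_ne _ _ _ _ _ hik]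
          ring
        rw [e1, e2] at h1
        have h3 : (2 * (d i * d k)) * (a k k - a i i) = 0 := by linear_combination h1
        have h4 := (mul_eq_zero.mp h3).resolve_left (mul_ne_zero h2 (mul_ne_zero (hd i) (hd k)))
        exact (sub_eq_zero.mp h4).symm
    constructor
    · obtain ⟨c, hc, hcn⟩ := hns
      have hex : ∃ i k : m, i ≠ k ∧ c i k ≠ 0 := by
        by_contra hcon
        push Not at hcon
        obtain ⟨o⟩ : Nonempty m := Fintype.card_pos_iff.mp (by omega)
        refine hcn (c o o) ?_
        ext u v
        by_cases huv : u = v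
        · subst huv
          simp [hdiag c hc u o]
        · simp [huv, hcon u v huv]
      obtain ⟨i, k, hik, hcik⟩ := hex
      have hR : ∀ j l : m, j ≠ l → sd d j l ∈ L := by
        refine conn hm (fun j l => sd d j l ∈ L) ?_ ?_ hik ?_
        · intro i k l hik hli hlk h
          have h1 := mv hL hik hli hlk (α := d k) (β := -d i) (by rw [← Matrix.single_neg, ← sub_eq_add_neg]; exact h)
          have h3 := L.smul_mem (d k)⁻¹ h1
          convert h3 using 1
          have := hd k
          rw [sd, smul_add, Matrix.smul_single, Matrix.smul_single, smul_eq_mul, smul_eq_mul, inv_mul_cancel_left₀ this,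
            sub_eq_add_neg, Matrix.single_neg]
          congr 2
          field_simp
        · intro i k j hik hji hjk h
          have h1 := mv hL hik.symm hjk hji (α := -d i) (β := d k) (by
            rw [← Matrix.single_neg, add_comm, ← sub_eq_add_neg]; exact h)
          have h3 := L.smul_mem (d i)⁻¹ h1
          convert h3 using 1
          have := hd i
          rw [sd, smul_add, Matrix.smul_single, Matrix.smul_single, smul_eq_mul, smul_eq_mul,
            sub_eq_add_neg, Matrix.single_neg, add_comm]
          congr 2 <;> field_simp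
        · have h1 := ent hd hm hL hik hc
          have h3 := L.smul_mem (d k / c i k) h1
          convert h3 using 1
          have h4 := hoff c hc i k hik
          have h5 : c k i = -(d i * c i k) / d k := by
            rw [eq_div_iff (hd k)]
            linear_combination h4
          have := hd k
          rw [sd, smul_add, Matrix.smul_single, Matrix.smul_single, smul_eq_mul, smul_eq_mul, sub_eq_add_neg,
            Matrix.single_neg, h5]
          congr 2 <;> field_simp
      have hR' : ∀ j l : m, sd d j l ∈ L := by
        intro j l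
        by_cases hjl : j = l
        · rw [hjl, sd, sub_self]; exact L.zero_mem
        · exact hR j l hjl
      intro s hs
      have hs' : ∀ u v, s v u * d v + d u * s u v = 0 := by
        intro u v
        have := congrFun (congrFun hs u) v
        rwa [Matrix.add_apply, mul_diagonal, diagonal_mul, transpose_apply, Matrix.zero_apply] at this
      have key : (2 : F) • s = ∑ j, ∑ l, (s j l / d l) • sd d j l := by
        have e1 : ∀ j l : m, (s j l / d l) • sd d j l = single j l (s j l) + single l j (s l j) := by
          intro j l
          have := hd l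
          have h7 := hs' j l
          rw [sd, smul_sub, Matrix.smul_single, Matrix.smul_single, smul_eq_mul, smul_eq_mul, sub_eq_add_neg,
            Matrix.single_neg]
          congr 2
          · field_simp
          · rw [div_mul_eq_mul_div, neg_eq_iff_eq_neg, div_eq_iff this]
            linear_combination h7
        simp only [e1, Finset.sum_add_distrib]
        rw [← matrix_eq_sum_single s, Finset.sum_comm, ← matrix_eq_sum_single s, two_smul]
      have h8 : (2 : F) • s ∈ L := by
        rw [key]
        exact L.sum_mem fun j _ => L.sum_mem fun l _ => L.smul_mem _ (hR' j l)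
      have h9 := L.smul_mem (2 : F)⁻¹ h8
      rwa [smul_smul, inv_mul_cancel₀ h2, one_smul] at h9
    · intro c hc
      obtain ⟨o⟩ : Nonempty m := Fintype.card_pos_iff.mp (by omega)
      refine ⟨2 * c o o, ?_⟩
      ext u v
      rw [Matrix.add_apply, mul_diagonal, diagonal_mul, transpose_apply, Matrix.smul_apply, smul_eq_mul]
      by_cases huv : u = v
      · subst huv
        rw [diagonal_apply_eq, hdiag c hc u o]
        ring
      · rw [diagonal_apply_ne _ huv, mul_zero]
        have := hoff c hc u v huv
        linear_combination this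

end Pool.Agent.Helper77.KN
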